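import Pool.Agent.Helper20.NS5.Goals

/-!
# Packet NS5-UQL (MP_c578c8_lc): the universal device is in linear space
-/

set_option autoImplicit false

namespace Pool.Agent.Helper32.NS5

open Pool.Agent.Helper65.LinSpace Pool.Agent.Helper78.Avg Finset
open Pool.Agent.Helper20.NS5

variable {α : Type} [Ctx α]

theorem ifz_le_one (c : ℕ) : ifz c 1 0 ≤ 1 := by
  unfold ifz
  split_ifs <;> omega

theorem tz_le (a : ℕ) : tz a ≤ Nat.log 2 a + 1 := by
  unfold tz
  refine (sum_le_sum (g := fun _ => 1) fun i _ => ifz_le_one _).trans ?_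
  simp

theorem LS.tz {a : α → ℕ} (ha : LS a) : LS (fun z => Helper20.NS5.tz (a z)) := by
  unfold Helper20.NS5.tz
  have h : LS (fun q : α × ℕ => a q.1) := by fun_prop
  refine LS.sum_le (f := fun z i => ifz ((a z + 1) % 2 ^ (min i (Nat.log 2 (a z)) + 1)) 1 0)
    (B := fun _ => 1) ?_ (by fun_prop) (by fun_prop) (fun z i _ => ifz_le_one _)
  exact LS.ifz (LS.modPow (LS.const 2) (by fun_prop) (by fun_prop)) (LS.const 1) (LS.const 0)

theorem LS.jb {a t : α → ℕ} (ha : LS a) (ht : LS t) : LS (fun z => Helper20.NS5.jb (a z) (t z)) := by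
  unfold Helper20.NS5.jb
  have h := LS.tz ha
  exact LS.mod (LS.divPow (LS.const 2) ha (by fun_prop)) (LS.const 2)

theorem jb_le_one (a t : ℕ) : jb a t ≤ 1 := by
  unfold jb
  omega

theorem LS.pre {a t : α → ℕ} (ha : LS a) (ht : LS t) : LS (fun z => Helper20.NS5.pre (a z) (t z)) := by
  unfold Helper20.NS5.pre
  have h := LS.tz ha
  refine LS.catN (LS.divPow (LS.const 2) ha (by fun_prop)) ?_
  refine LS.add ?_ ?_
  · refine LS.pow_of_le (f := fun _ => 2) (g := fun z => min (t z) (Helper20.NS5.tz (a z)))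
      (C := fun z => (a z + 2) ^ (2 * 1)) (by fun_prop) (by fun_prop) (by fun_prop) fun z => ?_
    refine le_trans ?_ (Pool.Agent.Helper78.Avg.two_pow_log_le (a z) 1)
    refine Nat.pow_le_pow_right (by norm_num) ?_
    have := tz_le (a z)
    omega
  · exact LS.modPow (LS.const 2) (LS.divPow (LS.const 2) ha (by fun_prop)) (by fun_prop)

theorem two_pow_le (c x : ℕ) : 2 ^ (c * Nat.log 2 x) ≤ (x + 2) ^ (2 * (c + 1)) := by
  refine le_trans ?_ (Pool.Agent.Helper78.Avg.two_pow_log_le x (c + 1))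
  refine Nat.pow_le_pow_right (by norm_num) ?_
  ring_nf
  omega

theorem LS.pw (c : ℕ) {x : α → ℕ} (hx : LS x) : LS (fun z => 2 ^ (c * Nat.log 2 (x z))) :=
  LS.pow_of_le (f := fun _ => 2) (g := fun z => c * Nat.log 2 (x z))
    (C := fun z => (x z + 2) ^ (2 * (c + 1))) (by fun_prop) (by fun_prop) (by fun_prop)
    fun z => two_pow_le c (x z)

theorem LS.pw1 {x : α → ℕ} (hx : LS x) : LS (fun z => 2 ^ (Nat.log 2 (x z))) :=
  LS.congr (LS.pw 1 hx) fun z => by rw [one_mul]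

theorem bt_le_one (acc : ℕ → ℕ → ℕ → ℕ → ℕ) (N : ℕ → ℕ) (c n e a z t v : ℕ) :
    bt acc N c n e a z t v ≤ 1 := lt01_le_one _ _

theorem LS.bt {acc : ℕ → ℕ → ℕ → ℕ → ℕ} {N : ℕ → ℕ} (c : ℕ)
    (hacc : LS (fun z : ℕ × ℕ × ℕ × ℕ => acc z.1 z.2.1 z.2.2.1 z.2.2.2)) (hN : LS N)
    {x e a y t v : α → ℕ} (hx : LS x) (he : LS e) (ha : LS a) (hy : LS y) (ht : LS t)
    (hv : LS v) :
    LS (fun z => Helper20.NS5.bt acc N c (Nat.log 2 (x z)) (e z) (a z) (y z) (t z) (v z)) := by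
  unfold Helper20.NS5.bt
  refine LS.lt01 (LS.const 0) ?_
  have hw : LS (fun z => 2 ^ (Nat.log 2 (x z)) + y z) := LS.add (LS.pw1 hx) hy
  have hc : LS (fun z => catN (Helper20.NS5.pre (a z) (t z)) (2 ^ (c * Nat.log 2 (x z)) + v z)) :=
    LS.catN (LS.pre ha ht) (LS.add (LS.pw c hx) hv)
  have hw' : LS (fun q : α × ℕ => 2 ^ (Nat.log 2 (x q.1)) + y q.1) :=
    LS.comp (f := fun q : α × ℕ => q.1) hw (by fun_prop)
  have hc' : LS (fun q : α × ℕ =>
      catN (Helper20.NS5.pre (a q.1) (t q.1)) (2 ^ (c * Nat.log 2 (x q.1)) + v q.1)) :=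
    LS.comp (f := fun q : α × ℕ => q.1) hc (by fun_prop)
  have he' : LS (fun q : α × ℕ => e q.1) := by fun_prop
  have harg : LS (fun q : α × ℕ => (e q.1, 2 ^ (Nat.log 2 (x q.1)) + y q.1,
      catN (Helper20.NS5.pre (a q.1) (t q.1)) (2 ^ (c * Nat.log 2 (x q.1)) + v q.1), q.2)) := by
    fun_prop
  have hsim : LS (fun q : α × ℕ => acc (e q.1) (2 ^ (Nat.log 2 (x q.1)) + y q.1)
      (catN (Helper20.NS5.pre (a q.1) (t q.1)) (2 ^ (c * Nat.log 2 (x q.1)) + v q.1)) q.2) :=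
    LS.comp (f := fun q : α × ℕ => (e q.1, 2 ^ (Nat.log 2 (x q.1)) + y q.1,
      catN (Helper20.NS5.pre (a q.1) (t q.1)) (2 ^ (c * Nat.log 2 (x q.1)) + v q.1), q.2)) hacc harg
  exact LS.sum_le (N := fun z => N (2 ^ (Nat.log 2 (x z)) + y z)) (B := fun _ => 1)
    (f := fun z S => lt01 0 (acc (e z) (2 ^ (Nat.log 2 (x z)) + y z)
      (catN (Helper20.NS5.pre (a z) (t z)) (2 ^ (c * Nat.log 2 (x z)) + v z)) S))
    (LS.lt01 (LS.const 0) hsim) (LS.comp (f := fun z => 2 ^ (Nat.log 2 (x z)) + y z) hN hw)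
    (by fun_prop) (fun z S _ => lt01_le_one _ _)

theorem LS.EQ {acc : ℕ → ℕ → ℕ → ℕ → ℕ} {N : ℕ → ℕ} (c : ℕ)
    (hacc : LS (fun z : ℕ × ℕ × ℕ × ℕ => acc z.1 z.2.1 z.2.2.1 z.2.2.2)) (hN : LS N)
    {x e a y y' : α → ℕ} (hx : LS x) (he : LS e) (ha : LS a) (hy : LS y) (hy' : LS y') :
    LS (fun z => Helper20.NS5.EQ acc N c (Nat.log 2 (x z)) (e z) (a z) (y z) (y' z)) := by
  unfold Helper20.NS5.EQ
  have hin : LS (fun q : α × ℕ => ∑ v ∈ range (2 ^ (c * Nat.log 2 (x q.1))),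
      (Helper20.NS5.bt acc N c (Nat.log 2 (x q.1)) (e q.1) (a q.1) (y q.1) q.2 v +
        Helper20.NS5.bt acc N c (Nat.log 2 (x q.1)) (e q.1) (a q.1) (y' q.1) q.2 v) % 2) := by
    refine LS.sum_le (N := fun q : α × ℕ => 2 ^ (c * Nat.log 2 (x q.1))) (B := fun _ => 1)
      (f := fun (q : α × ℕ) v => (Helper20.NS5.bt acc N c (Nat.log 2 (x q.1)) (e q.1) (a q.1) (y q.1) q.2 v +
        Helper20.NS5.bt acc N c (Nat.log 2 (x q.1)) (e q.1) (a q.1) (y' q.1) q.2 v) % 2)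
      ?_ (LS.pw c (by fun_prop)) (by fun_prop) (fun q v _ => by omega)
    refine LS.mod (LS.add ?_ ?_) (LS.const 2)
    · exact LS.bt (x := fun r : (α × ℕ) × ℕ => x r.1.1) (e := fun r => e r.1.1)
        (a := fun r => a r.1.1) (y := fun r => y r.1.1) (t := fun r => r.1.2)
        (v := fun r => r.2) c hacc hN (by fun_prop) (by fun_prop) (by fun_prop) (by fun_prop)
        (by fun_prop) (by fun_prop)
    · exact LS.bt (x := fun r : (α × ℕ) × ℕ => x r.1.1) (e := fun r => e r.1.1)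
        (a := fun r => a r.1.1) (y := fun r => y' r.1.1) (t := fun r => r.1.2)
        (v := fun r => r.2) c hacc hN (by fun_prop) (by fun_prop) (by fun_prop) (by fun_prop)
        (by fun_prop) (by fun_prop)
  refine LS.sum_le (N := fun z => Helper20.NS5.tz (a z) + 1) (B := fun z => 2 ^ (c * Nat.log 2 (x z)))
    (f := fun z t => Helper20.NS5.jb (a z) t * ∑ v ∈ range (2 ^ (c * Nat.log 2 (x z))),
      (Helper20.NS5.bt acc N c (Nat.log 2 (x z)) (e z) (a z) (y z) t v +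
        Helper20.NS5.bt acc N c (Nat.log 2 (x z)) (e z) (a z) (y' z) t v) % 2)
    (LS.mul (LS.jb (by fun_prop) (by fun_prop)) hin)
    (LS.add (LS.tz ha) (LS.const 1)) (LS.pw c hx) ?_
  intro z t _
  have h1 : ∑ v ∈ range (2 ^ (c * Nat.log 2 (x z))),
      (Helper20.NS5.bt acc N c (Nat.log 2 (x z)) (e z) (a z) (y z) t v +
        Helper20.NS5.bt acc N c (Nat.log 2 (x z)) (e z) (a z) (y' z) t v) % 2 ≤
      2 ^ (c * Nat.log 2 (x z)) := by
    refine (sum_le_sum (g := fun _ => 1) fun v _ => by omega).trans ?_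
    simp
  calc _ ≤ 1 * 2 ^ (c * Nat.log 2 (x z)) := Nat.mul_le_mul (jb_le_one _ _) h1
    _ = _ := one_mul _

theorem uql : UQL_stmt := by
  intro acc N c hacc hN
  exact LS.EQ (x := fun z : ℕ × ℕ × ℕ × ℕ × ℕ => z.1) (e := fun z => z.2.1)
    (a := fun z => z.2.2.1) (y := fun z => z.2.2.2.1) (y' := fun z => z.2.2.2.2) c hacc hN
    (by fun_prop) (by fun_prop) (by fun_prop) (by fun_prop) (by fun_prop)

end Pool.Agent.Helper32.NS5
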